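import Pool.Agent.N922.PZ.Stm
import Pool.Agent.N776.PQ.Rat
import Pool.Agent.N342.PY_NIC

/-!
# PZ/RTC: invariant classes come from classes over the field

Statement: helper922, Lean proof: helper681, after the proof of helper488 over `ℚ`.
-/

set_option autoImplicit false
set_option linter.all false

open Polynomial
open scoped Classical

namespace Pool.Agent.N681.PZ

open Pool.Agent.Y723.HJ (CR OddM HF clmap mapR CC mi bar nm cl clmap_mi)
open Pool.Agent.N783.PQ
open Pool.Agent.N922.PZ

/-- separability -/
theorem hf_of {g : ℕ} {a : Fin (2 * g) → ℤ} (hirr : Irreducible (fol a ℚ)) (L : Type) [Field L]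
    [CharZero L] : HF (fol a L) where
  toOddM := instOddM a L
  sep := by
    have h := (hirr.separable).map (f := Rat.castHom L)
    rwa [fol_map] at h
  two := two_ne_zero

theorem rtc : S_RTC := by
  intro g a n K _ _ _ x y R hirr hxy hR hfix
  haveI : CharZero (AlgebraicClosure K) :=
    charZero_of_injective_algebraMap (algebraMap K (AlgebraicClosure K)).injective
  haveI hHF : HF (fol a (AlgebraicClosure K)) := hf_of hirr _
  have e0 : (fol a K).map (algebraMap K (AlgebraicClosure K)) = fol a (AlgebraicClosure K) :=
    fol_map a _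
  obtain ⟨u, v, hu, hcop, hdvd, hcl⟩ := Pool.Agent.N776.PQ.rat K (fol a K)
    (fol a (AlgebraicClosure K)) e0
    (fun τ => fol_map a (τ : AlgebraicClosure K →+* AlgebraicClosure K)) (Additive.toMul R)
    (fun τ => congrArg Additive.toMul (hfix τ))
  refine ⟨cl (mi (fol a K) u v), ?_⟩
  apply Pool.Agent.N342.PY_NIC.inj K (AlgebraicClosure K) (algebraMap K (AlgebraicClosure K))
    (fol a K) (fol a (AlgebraicClosure K)) e0 g (fol_natDegree a K)
  have hcl' : cl (mi (fol a (AlgebraicClosure K)) (u.map (algebraMap K (AlgebraicClosure K)))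
      (v.map (algebraMap K (AlgebraicClosure K)))) = Additive.toMul R := by
    rw [← hcl]
  have hR1 : (Additive.toMul R) ^ n = cl (mi (fol a (AlgebraicClosure K))
      (X - C (algebraMap K (AlgebraicClosure K) x)) (C (algebraMap K (AlgebraicClosure K) y))) := by
    have h1 : n • R = ptCls a (AlgebraicClosure K) (algebraMap K _ x) (algebraMap K _ y) := hR
    unfold ptCls at h1
    rw [dif_pos hHF] at h1
    exact congrArg Additive.toMul h1
  rw [map_pow, clmap_mi _ _ hu.ne_zero, hcl', clmap_mi _ _ (X_sub_C_ne_zero x), hR1]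
  simp only [Polynomial.map_sub, Polynomial.map_X, Polynomial.map_C]

end Pool.Agent.N681.PZ
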